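import Pool.Agent.J4H1.GF.SM
import Pool.Agent.TH113.GF.A5
import Pool.Agent.TH236.GF.OQ
import Pool.Agent.TH263.GF.A2
import Pool.Agent.TH406.GF.REPA
import Pool.Agent.TH445.GF.DS
import Pool.Agent.TH479.GF.HD
import Pool.Agent.TH576.GF.TL
import Pool.Agent.TH637.GF.NA
import Pool.Agent.TH738.GF.TMV
import Pool.Agent.TH740.GF.GL3
import Pool.Agent.TH751.GF.MVB
import Pool.Agent.TH778.GF.ST
import Pool.Agent.TH914.GF.TW
import Pool.Agent.TH928.GF.ZN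
import Pool.Agent.TH928.GS.MV
import Pool.Agent.TH757.GS.CONT
import Pool.Agent.TH811.GS.One
import Pool.Agent.TH612.GS.GF3
import Pool.Agent.TH612.GS.GF4

set_option autoImplicit false

/-! Project GF: the theorem, with all the pieces. -/

namespace Pool.Agent.J4H1.GF

open Complex Filter Topology MeasureTheory Set
open Pool.Agent.TH612.GS

noncomputable section

theorem all_VQ : S_VQ := Pool.Agent.TH740.GF.t_VQ Pool.Agent.TH928.GS.t_MV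

theorem all_W : S_W :=
  t_W Pool.Agent.TH406.GF.t_REPA (Pool.Agent.TH236.GF.t_OQ Pool.Agent.TH321.GF.t_AQ) (t_SM all_VQ) all_VQ
    Pool.Agent.TH263.GF.t_A2 (Pool.Agent.TH738.GF.t_TMV Pool.Agent.TH928.GS.t_MV)
    (Pool.Agent.TH576.GF.t_TL Pool.Agent.TH263.GF.t_A2 Pool.Agent.TH751.GF.t_MVB)
    (Pool.Agent.TH914.GF.t_TW Pool.Agent.TH778.GF.t_ST Pool.Agent.TH445.GF.t_DS) Pool.Agent.TH479.GF.t_HD

theorem all_D (k : ℕ) (hk : k ≤ 4) : ∃ δ : ℝ, 0 < δ ∧ ∀ α : Fin k → ℝ,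
      ∃ T₀ : ℝ, ∀ T : ℝ, T₀ ≤ T → ∀ S : ℝ, 0 ≤ S → S ≤ T →
      mP (Fin k) T (BadD α T S (T ^ (1 - δ))) ≤ ENNReal.ofReal (T ^ (k - δ : ℝ)) :=
  mainD all_W (Pool.Agent.TH113.GF.t_A5 Pool.Agent.TH757.GS.t_CONT
    (Pool.Agent.TH740.GF.t_GL3 Pool.Agent.TH928.GS.t_MV))
    (Pool.Agent.TH928.GF.t_ZN (Pool.Agent.TH811.GS.t_ONE Pool.Agent.TH928.GS.t_MV)) Pool.Agent.TH637.GF.t_NA k hk

end

end Pool.Agent.J4H1.GF
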