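import Pool.Agent.TH321.GF.AQ
import Pool.Agent.TH740.GF.VQ
import Pool.Agent.TH612.GS.Z

set_option autoImplicit false

/-! Project GF, piece SM: the second moment of zeta on `[0, 2T]`. -/

namespace Pool.Agent.J4H1.GF

open Complex Filter Topology MeasureTheory Set
open Pool.Agent.TH612.GS

noncomputable section

theorem t_SM (hV : S_VQ) : S_SM := by
  obtain ⟨C, T₀, hC, hT₀, h⟩ := hV
  refine ⟨2 * C + 200, max T₀ 4, by positivity, le_max_of_le_left hT₀, fun T hT => ?_⟩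
  have hTT : T₀ ≤ T := (le_max_left _ _).trans hT
  have hT4 : 4 ≤ T := (le_max_right _ _).trans hT
  have hT0 : 0 < T := by linarith
  set X : ℕ := ⌈2 * T⌉₊ with hX
  have hX1 : 2 * T ≤ X := Nat.le_ceil _
  have hX2 : (X : ℝ) ≤ 4 * T := by
    have := Nat.ceil_lt_add_one (show 0 ≤ 2 * T by positivity)
    linarith
  have hX3 : 1 ≤ X := by
    have : (0:ℝ) < X := by linarith
    exact_mod_cast this
  have hX0 : (0:ℝ) < X := by linarith
  have h1 := h T X hTT hX3 hX2
  set p := Real.sqrt X with hp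
  have hp0 : 0 < p := Real.sqrt_pos.2 hX0
  have hp2 : p ^ 2 = X := Real.sq_sqrt hX0.le
  have hlog1 : 1 ≤ Real.log T := by
    rw [Real.le_log_iff_exp_le hT0]
    have := Real.exp_one_lt_d9
    linarith
  -- pointwise
  have hpt : ∀ u ∈ Ioc (0 : ℝ) (2 * T), ‖z u‖ ^ 2 ≤ 2 * ‖PN X u‖ ^ 2 +
      (36 * (4 * T) * (1 / (1 + u) ^ 2) + 9 / T) := by
    intro u hu
    have hu1 : 0 < 1 + u := by linarith [hu.1]
    have a := Pool.Agent.TH321.GF.AQ_pw u X hX3 hu.1 (by linarith [hu.2])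
    rw [← hp] at a
    have b : ‖z u‖ ≤ ‖PN X u‖ + (3 * p / (1 + u) + 3 / (2 * p)) := by
      calc ‖z u‖ = ‖PN X u + (z u - PN X u)‖ := by congr 1; ring
        _ ≤ _ := (norm_add_le _ _).trans (by linarith)
    have c1 : (3 * p / (1 + u) + 3 / (2 * p)) ^ 2 ≤ 2 * (3 * p / (1 + u)) ^ 2 + 2 * (3 / (2 * p)) ^ 2 := by
      nlinarith [sq_nonneg (3 * p / (1 + u) - 3 / (2 * p))]
    have c2 : (3 * p / (1 + u)) ^ 2 = 9 * X * (1 / (1 + u) ^ 2) := by
      rw [div_pow, mul_pow, hp2]; ring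
    have c3 : (3 / (2 * p)) ^ 2 = 9 / (4 * X) := by
      rw [div_pow, mul_pow, hp2]; norm_num
    have c4 : 9 * X * (1 / (1 + u) ^ 2) ≤ 9 * (4 * T) * (1 / (1 + u) ^ 2) := by gcongr
    have c5 : 9 / (4 * (X:ℝ)) ≤ 9 / (4 * T) := by
      gcongr
      linarith
    have c6 : 9 / (4 * T) = 9 / T / 4 := by field_simp
    have d : ‖z u‖ ^ 2 ≤ (‖PN X u‖ + (3 * p / (1 + u) + 3 / (2 * p))) ^ 2 :=
      pow_le_pow_left₀ (norm_nonneg _) b 2
    have e : (‖PN X u‖ + (3 * p / (1 + u) + 3 / (2 * p))) ^ 2 ≤ 2 * ‖PN X u‖ ^ 2 +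
        2 * (3 * p / (1 + u) + 3 / (2 * p)) ^ 2 := by
      nlinarith [sq_nonneg (‖PN X u‖ - (3 * p / (1 + u) + 3 / (2 * p)))]
    have f1 : (3 * p / (1 + u) + 3 / (2 * p)) ^ 2 ≤ 2 * (9 * (4 * T) * (1 / (1 + u) ^ 2)) + 2 * (9 / T / 4) := by
      rw [c2, c3] at c1
      linarith
    linarith
  have hcont : ContinuousOn (fun u : ℝ => 36 * (4 * T) * (1 / (1 + u) ^ 2) + 9 / T) (Icc 0 (2 * T)) := by
    refine ContinuousOn.add (ContinuousOn.mul continuousOn_const (ContinuousOn.div continuousOn_const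
      (by fun_prop) ?_)) continuousOn_const
    intro u hu
    have : 0 < 1 + u := by linarith [hu.1]
    positivity
  have hI : IntervalIntegrable (fun u : ℝ => 36 * (4 * T) * (1 / (1 + u) ^ 2) + 9 / T) volume 0 (2 * T) := by
    refine ContinuousOn.intervalIntegrable ?_
    rw [uIcc_of_le (by linarith)]
    exact hcont
  have hP : IntervalIntegrable (fun u : ℝ => 2 * ‖PN X u‖ ^ 2) volume 0 (2 * T) :=
    (continuous_const.mul ((PN_cont X).norm.pow 2)).intervalIntegrable _ _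
  have hFTC : ∫ u in (0:ℝ)..(2 * T), (36 * (4 * T) * (1 / (1 + u) ^ 2) + 9 / T)
      = (36 * (4 * T) * (-(1 / (1 + 2 * T))) + 9 / T * (2 * T)) -
        (36 * (4 * T) * (-(1 / (1 + 0))) + 9 / T * 0) := by
    apply intervalIntegral.integral_eq_sub_of_hasDerivAt
      (f := fun u => 36 * (4 * T) * (-(1 / (1 + u))) + 9 / T * u)
    · intro u hu
      rw [uIcc_of_le (by linarith)] at hu
      have hu1 : 1 + u ≠ 0 := by linarith [hu.1]
      have d0 : HasDerivAt (fun u : ℝ => 1 + u) 1 u := (hasDerivAt_id u).const_add 1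
      have d1 := ((d0.inv hu1).neg.const_mul (36 * (4 * T))).add ((hasDerivAt_id u).const_mul (9 / T))
      refine (d1.congr_deriv ?_).congr_of_eventuallyEq ?_
      · ring
      · refine Eventually.of_forall fun v => ?_
        simp [one_div]
    · exact hI
  have hmono : ∫ u in (0:ℝ)..(2 * T), ‖z u‖ ^ 2 ≤
      ∫ u in (0:ℝ)..(2 * T), (2 * ‖PN X u‖ ^ 2 + (36 * (4 * T) * (1 / (1 + u) ^ 2) + 9 / T)) := by
    rw [intervalIntegral.integral_of_le (by linarith), intervalIntegral.integral_of_le (by linarith)]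
    apply integral_mono_of_nonneg
    · exact Eventually.of_forall fun u => by positivity
    · exact (hP.add hI).1
    · rw [EventuallyLE, ae_restrict_iff' measurableSet_Ioc]
      exact Eventually.of_forall fun u hu => hpt u hu
  rw [intervalIntegral.integral_add hP hI, intervalIntegral.integral_const_mul, hFTC] at hmono
  refine hmono.trans ?_
  have e1 : 9 / T * (2 * T) = 18 := by field_simp; norm_num
  have e2 : 0 ≤ 36 * (4 * T) * (1 / (1 + 2 * T)) := by positivity
  have e3 : T ≤ T * Real.log T := by nlinarith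
  rw [e1]
  simp only [add_zero, mul_zero, div_one]
  nlinarith

end

end Pool.Agent.J4H1.GF
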